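import Pool.Agent.Lib.GemCW.Emb

/-!
The class of `(P₁+P₄, co-(P₂+P₃))`-free graphs has bounded clique-width.
-/

namespace Pool.Agent.Results.MP_ff2a9a_lc.BoundedCliqueWidth

open GemCW

/-- There is a constant `k` such that every finite graph `G` without induced `P₁+P₄` and without
induced complement of `P₂+P₃`, and its complement, have clique-width at most `k`. -/
theorem result : ∃ k : ℕ, ∀ (V : Type) [Fintype V] [Nonempty V] (G : SimpleGraph V),
    IsEmpty (P1P4 ↪g G) → IsEmpty (coP2P3 ↪g G) →
      CliqueWidthLE G k ∧ CliqueWidthLE Gᶜ k :=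
  bounded_cw_compl

end Pool.Agent.Results.MP_ff2a9a_lc.BoundedCliqueWidth
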