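import Pool.Agent.Lib.GemCW.Final

/-!
COLOURING of `(P₁+P₄, co-(P₂+P₃))`-free graphs is solvable in polynomial time.
-/

namespace Pool.Agent.Results.MP_ff2a9a_lc.ColouringInP

open GemCW Pool.Agent.Lib.Pa698a1

/-- The set of all (encodings of) pairs `(G, k)`, where `G` is a graph on `{0, …, n-1}` without
induced `P₁+P₄` and without induced complement of `P₂+P₃` and `G` is `k`-colourable, is decided, on
all bit strings, by a Turing machine in polynomial time. -/
theorem result : InP {w : List Bool | ∃ (n : ℕ) (G : SimpleGraph (Fin n)) (k : ℕ),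
    (IsEmpty (P1P4 ↪g G) ∧ IsEmpty (coP2P3 ↪g G)) ∧ G.Colorable k ∧ encode G k = w} :=
  colouring_inP

end Pool.Agent.Results.MP_ff2a9a_lc.ColouringInP
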